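import Pool.Agent.helper19.MX.SpecD

/-!
# Row mx:CEX (MP_a875de_ag): constant field extension
-/

set_option autoImplicit false
set_option linter.unusedVariables false

namespace MX

open Pool.Agent.helper53.AU AN
open scoped Classical Topology IntermediateField
open Finset (range powerset Icc)

noncomputable section

abbrev CEX_ix (r : ℕ) : Type := {I : Finset ℕ // I ⊆ range r}

instance CEX_fin (r : ℕ) : Finite (CEX_ix r) :=
  Finite.of_injective (fun I : CEX_ix r => (⟨I.1, Finset.mem_powerset.2 I.2⟩ : (range r).powerset))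
    (fun I J h => Subtype.ext (by
      have h1 := congrArg Subtype.val h
      exact h1))

instance CEX_fint (r : ℕ) : Fintype (CEX_ix r) := Fintype.ofFinite _

/-- every element of `F` is `∑_I (p_I(x) / D(x)) y^I` -/
theorem CEX_rep {k F : Type} [Field k] [Field F] [Algebra k F] {x : F} (hx : Transcendental k x)
    {r : ℕ} {y : ℕ → F}
    (hsp : Submodule.span k⟮x⟯ (Set.range (fun I : CEX_ix r => ∏ j ∈ (I : Finset ℕ), y j)) = ⊤)
    (w : F) : ∃ (D : Polynomial k) (p : CEX_ix r → Polynomial k), D ≠ 0 ∧
      Polynomial.aeval x D * w = ∑ I, Polynomial.aeval x (p I) * ∏ j ∈ (I : Finset ℕ), y j := by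
  have hw : w ∈ Submodule.span k⟮x⟯ (Set.range (fun I : CEX_ix r => ∏ j ∈ (I : Finset ℕ), y j)) := by
    rw [hsp]
    exact Submodule.mem_top
  have hne : ∀ D : Polynomial k, D ≠ 0 → Polynomial.aeval x D ≠ 0 := by
    intro D hD h0
    exact hD ((transcendental_iff.1 hx) D h0)
  induction hw using Submodule.span_induction with
  | mem w hw =>
    obtain ⟨J, rfl⟩ := hw
    refine ⟨1, fun I => if I = J then 1 else 0, one_ne_zero, ?_⟩
    rw [map_one, one_mul, Finset.sum_eq_single J]
    · dsimp only
      rw [if_pos rfl, map_one, one_mul]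
    · intro I _ hI
      dsimp only
      rw [if_neg hI, map_zero, zero_mul]
    · intro h
      exact absurd (Finset.mem_univ J) h
  | zero =>
    refine ⟨1, fun _ => 0, one_ne_zero, ?_⟩
    simp
  | add w₁ w₂ _ _ h₁ h₂ =>
    obtain ⟨D₁, p₁, hD₁, e₁⟩ := h₁
    obtain ⟨D₂, p₂, hD₂, e₂⟩ := h₂
    refine ⟨D₁ * D₂, fun I => D₂ * p₁ I + D₁ * p₂ I, mul_ne_zero hD₁ hD₂, ?_⟩
    have h3 : ∑ I, Polynomial.aeval x (D₂ * p₁ I + D₁ * p₂ I) * ∏ j ∈ (I : Finset ℕ), y j =
        Polynomial.aeval x D₂ * ∑ I, Polynomial.aeval x (p₁ I) * ∏ j ∈ (I : Finset ℕ), y j +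
        Polynomial.aeval x D₁ * ∑ I, Polynomial.aeval x (p₂ I) * ∏ j ∈ (I : Finset ℕ), y j := by
      rw [Finset.mul_sum, Finset.mul_sum, ← Finset.sum_add_distrib]
      refine Finset.sum_congr rfl fun I _ => ?_
      rw [map_add, map_mul, map_mul]
      ring
    rw [h3, ← e₁, ← e₂, map_mul]
    ring
  | smul g w _ h =>
    obtain ⟨D, p, hD, e⟩ := h
    obtain ⟨a, b, hab⟩ := (IntermediateField.mem_adjoin_simple_iff k (g : F)).1 g.2
    have hsm : g • w = (g : F) * w := rfl
    by_cases hb : b = 0
    · refine ⟨1, fun _ => 0, one_ne_zero, ?_⟩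
      rw [hsm, hab, hb]
      simp
    · refine ⟨D * b, fun I => a * p I, mul_ne_zero hD hb, ?_⟩
      have h3 : ∑ I, Polynomial.aeval x (a * p I) * ∏ j ∈ (I : Finset ℕ), y j =
          Polynomial.aeval x a * ∑ I, Polynomial.aeval x (p I) * ∏ j ∈ (I : Finset ℕ), y j := by
        rw [Finset.mul_sum]
        refine Finset.sum_congr rfl fun I _ => ?_
        rw [map_mul]
        ring
      rw [h3, ← e, hsm, hab, map_mul]
      have := hne b hb
      field_simp

/-- common denominators -/
theorem CEX_reps {k F : Type} [Field k] [Field F] [Algebra k F] {x : F} (hx : Transcendental k x)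
    {r : ℕ} {y : ℕ → F}
    (hsp : Submodule.span k⟮x⟯ (Set.range (fun I : CEX_ix r => ∏ j ∈ (I : Finset ℕ), y j)) = ⊤)
    {n : ℕ} (v : Fin n → F) : ∃ (D : Polynomial k) (p : Fin n → CEX_ix r → Polynomial k), D ≠ 0 ∧
      ∀ i, Polynomial.aeval x D * v i =
        ∑ I, Polynomial.aeval x (p i I) * ∏ j ∈ (I : Finset ℕ), y j := by
  choose D p hD hp using fun i => CEX_rep hx hsp (v i)
  refine ⟨∏ i, D i, fun i I => (∏ j ∈ Finset.univ.erase i, D j) * p i I,
    Finset.prod_ne_zero_iff.2 fun i _ => hD i, ?_⟩
  intro i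
  rw [← Finset.prod_erase_mul (Finset.univ) D (Finset.mem_univ i), map_mul, mul_assoc, hp i,
    Finset.mul_sum]
  refine Finset.sum_congr rfl fun I _ => ?_
  rw [map_mul]
  ring

theorem CEX_map {K L F F' : Type} [Field K] [Field L] [Field F] [Field F'] [Algebra K L]
    [Algebra K F] [Algebra L F'] (j : F →+* F')
    (hj : ∀ c : K, j (algebraMap K F c) = algebraMap L F' (algebraMap K L c)) (x : F)
    (q : Polynomial K) :
    j (Polynomial.aeval x q) = Polynomial.aeval (j x) (q.map (algebraMap K L)) := by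
  rw [Polynomial.aeval_def, Polynomial.aeval_def, Polynomial.hom_eval₂, Polynomial.eval₂_map]
  congr 1
  exact RingHom.ext hj

/-- elements of the span of the image of `F` -/
theorem CEX_span {L F F' : Type} [Field L] [Field F] [Field F'] [Algebra L F'] (j : F →+* F')
    {w : F'} (hw : w ∈ Submodule.span L (Set.range j)) :
    ∃ (n : ℕ) (a : Fin n → L) (u : Fin n → F), w = ∑ i, algebraMap L F' (a i) * j (u i) := by
  induction hw using Submodule.span_induction with
  | mem w hw =>
    obtain ⟨u, rfl⟩ := hw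
    refine ⟨1, fun _ => 1, fun _ => u, ?_⟩
    simp
  | zero => exact ⟨0, Fin.elim0, Fin.elim0, by simp⟩
  | add w₁ w₂ _ _ h₁ h₂ =>
    obtain ⟨n₁, a₁, u₁, e₁⟩ := h₁
    obtain ⟨n₂, a₂, u₂, e₂⟩ := h₂
    refine ⟨n₁ + n₂, Fin.append a₁ a₂, Fin.append u₁ u₂, ?_⟩
    rw [Fin.sum_univ_add, e₁, e₂]
    simp only [Fin.append_left, Fin.append_right]
  | smul c w _ h =>
    obtain ⟨n, a, u, e⟩ := h
    refine ⟨n, fun i => c * a i, u, ?_⟩
    rw [e, Algebra.smul_def, Finset.mul_sum]
    refine Finset.sum_congr rfl fun i _ => ?_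
    rw [map_mul, mul_assoc]

theorem CEX_adj {L F F' : Type} [Field L] [Field F] [Field F'] [Algebra L F'] (j : F →+* F')
    {w : F'} (hw : w ∈ Algebra.adjoin L (Set.range j)) : w ∈ Submodule.span L (Set.range j) := by
  have h1 : Submonoid.closure (Set.range j) = MonoidHom.mrange (j : F →* F') := by
    have h2 : Set.range j = (MonoidHom.mrange (j : F →* F') : Set F') := by
      ext z
      rfl
    rw [h2, Submonoid.closure_eq]
  have h3 := Algebra.adjoin_eq_span_of_subset (R := L) (s := Set.range j) (by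
    rw [h1]
    intro z hz
    exact Submodule.subset_span hz)
  rw [← h3]
  exact hw

theorem CEX (hBAS : BAS_stmt) : CEX_stmt := by
  intro K F F' _ _ _ _ _ _ j x r y f hperf hAS hAS' hj
  refine ⟨hj, ?_, ?_⟩
  · intro z
    by_cases hz : z = 0
    · refine ⟨1, fun _ => 0, fun _ => 1, fun _ => 0, fun _ => 1, ?_, ?_⟩
      · simp
      · simp [hz]
    · have hzt : z ∈ IntermediateField.adjoin (AlgebraicClosure K)
          ({j x} ∪ (fun i => j (y i)) '' {i | i < r}) := by
        rw [hAS'.gen]
        exact IntermediateField.mem_top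
      obtain ⟨a, ha, b, hb, hab⟩ := IntermediateField.mem_adjoin_iff_div.1 hzt
      have hsub : ({j x} ∪ (fun i => j (y i)) '' {i | i < r} : Set F') ⊆ Set.range j := by
        rintro w (hw | ⟨i, -, rfl⟩)
        · rw [Set.mem_singleton_iff] at hw
          exact ⟨x, hw.symm⟩
        · exact ⟨y i, rfl⟩
      obtain ⟨n₁, a₁, u₁, e₁⟩ := CEX_span j (CEX_adj j (Algebra.adjoin_mono hsub ha))
      obtain ⟨n₂, b₂, v₂, e₂⟩ := CEX_span j (CEX_adj j (Algebra.adjoin_mono hsub hb))
      have hb0 : b ≠ 0 := by
        rintro rfl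
        rw [div_zero] at hab
        exact hz hab
      refine ⟨n₁ + n₂, Fin.append a₁ (fun _ => 0), Fin.append (fun _ => 0) b₂,
        Fin.append u₁ (fun _ => 0), Fin.append (fun _ => 0) v₂, ?_, ?_⟩
      · rw [Fin.sum_univ_add]
        simp only [Fin.append_left, Fin.append_right, map_zero, zero_mul, Finset.sum_const_zero,
          zero_add]
        rw [← e₂]
        exact hb0
      · rw [Fin.sum_univ_add, Fin.sum_univ_add]
        simp only [Fin.append_left, Fin.append_right, map_zero, zero_mul, Finset.sum_const_zero,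
          zero_add, add_zero]
        rw [← e₂, ← e₁, hab, div_mul_cancel₀ _ hb0]
  · intro n v hv
    have hperf' : ∀ c : AlgebraicClosure K, ∃ c' : AlgebraicClosure K, c' ^ 2 = c := fun c =>
      IsAlgClosed.exists_pow_nat_eq c (by norm_num)
    obtain ⟨-, -, hsp⟩ := hBAS K F hperf x r y f hAS
    obtain ⟨-, hli, -⟩ := hBAS (AlgebraicClosure K) F' hperf' (j x) r (fun i => j (y i)) _ hAS'
    obtain ⟨D, p, hD, hp⟩ := CEX_reps hAS.tr hsp v
    have hDx : Polynomial.aeval x D ≠ 0 := fun h0 => hD ((transcendental_iff.1 hAS.tr) D h0)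
    rw [Fintype.linearIndependent_iff]
    intro c hc
    let Q : CEX_ix r → Polynomial (AlgebraicClosure K) := fun I =>
      ∑ i, Polynomial.C (c i) * (p i I).map (algebraMap K (AlgebraicClosure K))
    have hQ : ∑ I, Polynomial.aeval (j x) (Q I) * ∏ l ∈ (I : Finset ℕ), j (y l) = 0 := by
      have h1 : ∀ i, j (Polynomial.aeval x D) * j (v i) =
          ∑ I, Polynomial.aeval (j x) ((p i I).map (algebraMap K (AlgebraicClosure K))) *
            ∏ l ∈ (I : Finset ℕ), j (y l) := by
        intro i
        rw [← map_mul, hp i, map_sum]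
        refine Finset.sum_congr rfl fun I _ => ?_
        rw [map_mul, CEX_map j hj, map_prod]
      have h2 : ∑ I, Polynomial.aeval (j x) (Q I) * ∏ l ∈ (I : Finset ℕ), j (y l) =
          ∑ i, algebraMap _ F' (c i) * (j (Polynomial.aeval x D) * j (v i)) := by
        simp only [h1, Finset.mul_sum]
        rw [Finset.sum_comm]
        refine Finset.sum_congr rfl fun I _ => ?_
        rw [map_sum, Finset.sum_mul]
        refine Finset.sum_congr rfl fun i _ => ?_
        rw [map_mul, Polynomial.aeval_C]
        ring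
      have h3 : ∑ i, algebraMap _ F' (c i) * (j (Polynomial.aeval x D) * j (v i)) =
          j (Polynomial.aeval x D) * ∑ i, c i • j (v i) := by
        rw [Finset.mul_sum]
        refine Finset.sum_congr rfl fun i _ => ?_
        rw [Algebra.smul_def]
        ring
      rw [h2, h3, hc, mul_zero]
    have hQ0 : ∀ I, Q I = 0 := by
      have hmem : ∀ I, Polynomial.aeval (j x) (Q I) ∈ (AlgebraicClosure K)⟮j x⟯ := fun I =>
        (IntermediateField.mem_adjoin_simple_iff _ _).2 ⟨Q I, 1, by simp⟩
      intro I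
      have h4 := Fintype.linearIndependent_iff.1 hli (fun I => ⟨_, hmem I⟩) hQ I
      have h5 : Polynomial.aeval (j x) (Q I) = 0 := congrArg Subtype.val h4
      exact (transcendental_iff.1 hAS'.tr) _ h5
    have hcoef : ∀ I m, ∑ i, c i * algebraMap K (AlgebraicClosure K) ((p i I).coeff m) = 0 := by
      intro I m
      have h6 := congrArg (fun P => Polynomial.coeff P m) (hQ0 I)
      simpa [Q, Polynomial.finsetSum_coeff] using h6
    have hlam : ∀ (lam : Module.Dual K (AlgebraicClosure K)) (i : Fin n), lam (c i) = 0 := by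
      intro lam
      have h7 : ∀ I, ∑ i, Polynomial.C (lam (c i)) * p i I = 0 := by
        intro I
        ext m
        rw [Polynomial.finsetSum_coeff, Polynomial.coeff_zero]
        have h8 := congrArg lam (hcoef I m)
        rw [map_zero, map_sum] at h8
        rw [← h8]
        refine Finset.sum_congr rfl fun i _ => ?_
        rw [Polynomial.coeff_C_mul, mul_comm (c i), ← Algebra.smul_def, map_smul, smul_eq_mul,
          mul_comm]
      have h9 : Polynomial.aeval x D * ∑ i, lam (c i) • v i = 0 := by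
        have h10 : Polynomial.aeval x D * ∑ i, lam (c i) • v i =
            ∑ I, Polynomial.aeval x (∑ i, Polynomial.C (lam (c i)) * p i I) *
              ∏ l ∈ (I : Finset ℕ), y l := by
          rw [Finset.mul_sum]
          have h11 : ∀ i, Polynomial.aeval x D * lam (c i) • v i =
              ∑ I, Polynomial.aeval x (Polynomial.C (lam (c i)) * p i I) *
                ∏ l ∈ (I : Finset ℕ), y l := by
            intro i
            rw [Algebra.smul_def, mul_left_comm, hp i, Finset.mul_sum]
            refine Finset.sum_congr rfl fun I _ => ?_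
            rw [map_mul, Polynomial.aeval_C]
            ring
          simp only [h11]
          rw [Finset.sum_comm]
          refine Finset.sum_congr rfl fun I _ => ?_
          rw [map_sum, Finset.sum_mul]
        rw [h10]
        refine Finset.sum_eq_zero fun I _ => ?_
        rw [h7 I, map_zero, zero_mul]
      have h12 := (mul_eq_zero.1 h9).resolve_left hDx
      exact Fintype.linearIndependent_iff.1 hv _ h12
    intro i
    exact (Module.forall_dual_apply_eq_zero_iff K (c i)).1 fun lam => hlam lam i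

end

end MX
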