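import Pool.Agent.helper19.MX.SpecA

/-!
# Row mx:PS1 (MP_a875de_ag): the additive character `ps`
-/

set_option autoImplicit false

namespace MX

open Pool.Agent.helper53.AU AN
open scoped Classical Topology

/-- the map `u ↦ u ^ 2 + u` -/
noncomputable def PS1_A (K : Type) [Field K] [CharP K 2] : K →+ K where
  toFun u := u ^ 2 + u
  map_zero' := by simp
  map_add' u v := by
    rw [add_pow_char]
    ring

theorem PS1_index (K : Type) [Field K] [Fintype K] [CharP K 2] : (PS1_A K).range.index = 2 := by
  have h1 : Nat.card (PS1_A K).ker = 2 := by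
    have h2 : ((PS1_A K).ker : Set K) = {0, 1} := by
      ext u
      rw [SetLike.mem_coe, AddMonoidHom.mem_ker]
      show u ^ 2 + u = 0 ↔ u = 0 ∨ u = 1
      have h3 : u ^ 2 + u = u * (u + 1) := by ring
      rw [h3, mul_eq_zero, CharTwo.add_eq_zero]
    have h4 : Nat.card (PS1_A K).ker = ((PS1_A K).ker : Set K).ncard := rfl
    rw [h4, h2, Set.ncard_pair zero_ne_one]
  have h5 := AddSubgroup.index_ker (PS1_A K)
  have h6 := AddSubgroup.card_mul_index (PS1_A K).ker
  have h7 := AddSubgroup.card_mul_index (PS1_A K).range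
  rw [h5, h1, ← h7, mul_comm] at h6
  have h8 : 0 < Nat.card (PS1_A K).range := Nat.card_pos
  exact (Nat.eq_of_mul_eq_mul_left h8 h6).symm

theorem PS1_mem {K : Type} [Field K] [CharP K 2] (z : K) :
    (∃ y : K, y ^ 2 + y = z) ↔ z ∈ (PS1_A K).range := Iff.rfl

theorem PS1 : PS1_stmt := by
  intro K _ _ _
  have hidx := PS1_index K
  have hps : ∀ z : K, ps z = if z ∈ (PS1_A K).range then 1 else -1 := by
    intro z
    unfold ps
    simp only [PS1_mem]
  have hadd : ∀ z w : K, ps (z + w) = ps z * ps w := by
    intro z w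
    rw [hps, hps, hps]
    have h := AddSubgroup.add_mem_iff_of_index_two hidx (a := z) (b := w)
    by_cases h1 : z ∈ (PS1_A K).range <;> by_cases h2 : w ∈ (PS1_A K).range <;>
      simp [h, h1, h2]
  have hu : ∀ u : K, ps (u ^ 2 + u) = 1 := by
    intro u
    rw [hps, if_pos ⟨u, rfl⟩]
  have hsq : ∀ w : K, ps (w ^ 2) = ps w := by
    intro w
    have h1 : w ^ 2 = w + (w ^ 2 + w) := by
      have h2 : w + w = 0 := CharTwo.add_self_eq_zero w
      linear_combination -h2
    rw [h1, hadd, hu, mul_one]
  refine ⟨?_, hadd, hu, ?_, ?_, ?_⟩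
  · have := hu 0
    simpa using this
  · intro z j
    induction j with
    | zero => rw [pow_zero, pow_one]
    | succ j ih => rw [pow_succ, pow_mul, hsq, ih]
  · intro z
    rw [hps]
    split_ifs
    · exact Or.inl rfl
    · exact Or.inr rfl
  · by_contra hne
    push Not at hne
    have htop : (PS1_A K).range = ⊤ := by
      rw [eq_top_iff]
      intro z _
      by_contra hz
      exact hne z (by rw [hps, if_neg hz])
    rw [htop, AddSubgroup.index_top] at hidx
    omega

end MX
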